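import Pool.Agent.Y1.HZ.CritDefs
import Pool.Agent.TH504.CB.PeriodDefs

/-!
# Absolute Hodge classes on the products of abelian varieties with complex multiplication and
arbitrary varieties: definitions

An abelian variety `A` is given by the inclusion `per : W → T` of its rational homology in its tangent
space, a smooth projective variety `Z` by its rational cohomology `V : Coh v`: the space `ℚ ^ v` with
the Hodge operator `V.z`, the multiplication by `p - q` on the classes of type `(p, q)`. The
cohomology of `A × Z` is `HAZ W v`: the sum over `k` of the spaces of alternating forms of degree `k` on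
`W` with values in the cohomology of `Z` (Kuenneth).
-/

set_option autoImplicit false

namespace Pool.Agent.R299.AHT

open Matrix NumberField Pool.Agent.H204R3.CM Pool.Agent.TH131.GHC Pool.Agent.TH504.VY
  Pool.Agent.Y1.HZ

/-- `f` is a Hodge class on `A`: it extends to a real alternating form on the tangent space with complex
values which is killed by the derivation defined by the multiplication by `i`. -/
def IsHodgeForm {W T : Type} [AddCommGroup W] [Module ℚ W] [AddCommGroup T] [Module ℂ T]
    (per : W →+ T) {k : ℕ} (f : W [⋀^Fin k]→ₗ[ℚ] ℚ) : Prop :=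
  ∃ ψ : T [⋀^Fin k]→ₗ[ℝ] ℂ, (∀ w : Fin k → W, ψ (fun l => per (w l)) = (f w : ℂ)) ∧
    ∀ u : Fin k → T, ∑ l, ψ (Function.update u l (Complex.I • u l)) = 0

/-- The span of the products `f ⊗ x` of a Hodge class `f` on `A` and a Hodge class `x` on `Z`. -/
noncomputable def hodgeBox {W T : Type} [AddCommGroup W] [Module ℚ W] [AddCommGroup T] [Module ℂ T]
    (per : W →+ T) {v : ℕ} (V : Coh v) : Submodule ℚ (HAZ W v) :=
  Submodule.span ℚ {F | ∃ (k : ℕ) (f : W [⋀^Fin k]→ₗ[ℚ] ℚ) (x : Fin v → ℚ),
    IsHodgeForm per f ∧ IsHodgeOn V x ∧ F = cross f x}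

/-- A rational vector as a vector over `R`. -/
def rv (R : Type) [Field R] {v : ℕ} (x : Fin v → ℚ) : Fin v → R := fun b => (x b : R)

/-- A comparison with coefficients in the field `R` of the varieties `A` and `Z` and their conjugates
`A'` (with the rational homology `ℚ ^ n`) and `Z'`. -/
structure Comparison (R : Type) [Field R] [CharZero R] {W T : Type} [AddCommGroup W] [Module ℚ W]
    [AddCommGroup T] [Module ℂ T] (per : W →+ T) (v : ℕ) {n : ℕ} {T' : Type} [AddCommGroup T']
    [Module ℂ T'] (per' : (Fin n → ℚ) →+ T') (v' : ℕ) where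
  /-- the comparison map of the homology groups of `A` and `A'` -/
  κ : W →ₗ[ℚ] (Fin n → R)
  /-- the matrix of the comparison map of the cohomology groups of `Z` and `Z'` -/
  D : Matrix (Fin v') (Fin v) R
  /-- the theorem of Deligne: the Hodge classes of `A` are absolute Hodge classes -/
  deligne : ∀ (k : ℕ) (f : W [⋀^Fin k]→ₗ[ℚ] ℚ), IsHodgeForm per f →
    ∃ f' : (Fin n → ℚ) [⋀^Fin k]→ₗ[ℚ] ℚ, IsHodgeForm per' f' ∧ ∀ w : Fin k → W,
      ((f w : ℚ) : R) = ∑ J : Fin k → Fin n, (∏ l, κ (w l) (J l)) *
        ((f' (fun l => Pi.single (J l) 1) : ℚ) : R)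

namespace Comparison

variable {R : Type} [Field R] [CharZero R] {W T : Type} [AddCommGroup W] [Module ℚ W]
    [AddCommGroup T] [Module ℂ T] {per : W →+ T} {v : ℕ} {n : ℕ} {T' : Type} [AddCommGroup T']
    [Module ℂ T'] {per' : (Fin n → ℚ) →+ T'} {v' : ℕ} (C : Comparison R per v per' v')

/-- The class `x` on `Z` is transformed into the class `x'` on `Z'`. -/
def RelZ (x : Fin v → ℚ) (x' : Fin v' → ℚ) : Prop := C.D *ᵥ rv R x = rv R x'

/-- The class `F` on `A × Z` is transformed into the class `F'` on `A' × Z'`: the extension of `F'` to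
the homology with coefficients in `R` takes the value `D (F (w))` on the images of the vectors `w` of
the homology of `A`. -/
def RelAZ (F : HAZ W v) (F' : HAZ (Fin n → ℚ) v') : Prop :=
  ∀ (k : ℕ) (w : Fin k → W), C.D *ᵥ rv R (F k w) =
    ∑ J : Fin k → Fin n, (∏ l, C.κ (w l) (J l)) • rv R (F' k (fun l => Pi.single (J l) 1))

/-- All Hodge classes on `Z` are transformed into Hodge classes on `Z'`. -/
def AbsZ (V : Coh v) (V' : Coh v') : Prop :=
  ∀ x, IsHodgeOn V x → ∃ x', IsHodgeOn V' x' ∧ C.RelZ x x'

/-- All Hodge classes on `A × Z` are transformed into Hodge classes on `A' × Z'`. -/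
def AbsAZ (V : Coh v) (V' : Coh v') : Prop :=
  ∀ F, IsHodgeOnProduct per V F → ∃ F', IsHodgeOnProduct per' V' F' ∧ C.RelAZ F F'

end Comparison

/-- All Hodge classes on `A × Z` are sums of products of Hodge classes. -/
def HodgeInBox {W T : Type} [AddCommGroup W] [Module ℚ W] [AddCommGroup T] [Module ℂ T]
    (per : W →+ T) {v : ℕ} (V : Coh v) : Prop :=
  ∀ F, IsHodgeOnProduct per V F → F ∈ hodgeBox per V

/-- For all comparisons of `A`, `Z` with conjugates `A'`, `Z'`, with all coefficients, all Hodge classes
on `A × Z` are transformed into Hodge classes if and only if all Hodge classes on `Z` are transformed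
into Hodge classes. -/
def AbsEquiv {W T : Type} [AddCommGroup W] [Module ℚ W] [AddCommGroup T] [Module ℂ T]
    (per : W →+ T) {v : ℕ} (V : Coh v) : Prop :=
  ∀ (R : Type) [Field R] [CharZero R] (n : ℕ) (T' : Type) [AddCommGroup T'] [Module ℂ T']
    (per' : (Fin n → ℚ) →+ T') (v' : ℕ) (V' : Coh v') (C : Comparison R per v per' v'),
    C.AbsAZ V V' ↔ C.AbsZ V V'

/-- The theorem for the products `A` of copies of the abelian varieties of CM type `(E i, Φ i)` and for
all varieties `Z` which are unrelated to the fields `E i`: all Hodge classes on `A × Z` are sums of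
products of Hodge classes, and for all comparisons of `A`, `Z` with conjugates `A'`, `Z'`, with all
coefficients, all Hodge classes on `A × Z` are transformed into Hodge classes if and only if all Hodge
classes on `Z` are transformed into Hodge classes. -/
def AbsHodgeTimes {ι : Type} {E : ι → Type} [∀ i, Field (E i)] (Φ : ∀ i, Set (E i →+* ℂ))
    [∀ i, NumberField (E i)] : Prop :=
  ∀ (J : Type) [Fintype J] (t : J → ι) (v : ℕ) (V : Coh v), (∀ i, UnrelatedHodge V (E i)) →
    HodgeInBox (per Φ t) V ∧ AbsEquiv (per Φ t) V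

/-- The cohomology of `Z` has no parts with complex multiplication except those of types `(p, p)`: if
all conjugates of `w ≠ 0` are of pure type then they are sums of classes of types `(p, p)`. -/
def NoCMParts {v : ℕ} (V : Coh v) : Prop :=
  ∀ (w : Fin v → ℂ) (d : (ℂ ≃+* ℂ) → ℤ), w ≠ 0 → HasTypes V w d → ∀ σ, d σ = 0

end Pool.Agent.R299.AHT
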