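import Pool.Agent.R299.AHT.Zero

/-!
# Hodge classes on the products of abelian varieties with complex multiplication and unrelated
varieties
-/

set_option autoImplicit false
set_option linter.unusedSectionVars false
set_option linter.unusedVariables false

namespace Pool.Agent.R299.AHT

open Matrix NumberField Module Equiv Pool.Agent.H204R3.CM Pool.Agent.TH131.GHC
  Pool.Agent.H977R3.CM Pool.Agent.TH504.VY Pool.Agent.Y1.HZ Pool.Agent.TH170.CM

noncomputable section

variable {ι J : Type} [Fintype ι] [Fintype J] {E : ι → Type} [∀ i, Field (E i)]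
  [∀ i, NumberField (E i)] [∀ i, IsCMField (E i)]
  {L : Type} [Field L] [NumberField L] [IsGalois ℚ L]
  {Φ : ∀ i, Set (E i →+* ℂ)} (hΦ : ∀ i, IsCMType (Φ i)) (t : J → ι) (j : L →+* ℂ)
  {v k : ℕ} (V : Coh v)

include hΦ in
/-- The values of a Hodge class on `A × Z` are Hodge classes on `Z`. -/
theorem value_mem (h : ∀ i, ∀ ψ : E i →+* ℂ, ∃ φ : E i →+* L, j.comp φ = ψ)
    (hun : ∀ i, UnrelatedHodge V (E i)) (f : (∀ j, E (t j)) [⋀^Fin k]→ₗ[ℚ] (Fin v → ℚ))
    (S : Sit Φ t j V f) (w : Fin k → ∀ j, E (t j)) : f w ∈ HZ V := by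
  classical
  change V.z *ᵥ cv (f w) = 0
  have h1 : cv (f w) = ∑ I : Fin k → XX E t L, j (∏ l, chi E t L (w l) (I l)) •
      fun b => j (S.c b I) := by
    funext b
    rw [Finset.sum_apply]
    have h2 := congrArg j (S.hc b w)
    rw [map_ratCast, map_sum] at h2
    change ((f w b : ℚ) : ℂ) = _
    rw [h2]
    refine Finset.sum_congr rfl fun I _ => ?_
    rw [Pi.smul_apply, smul_eq_mul, map_mul, mul_comm]
  rw [h1, Matrix.mulVec_sum]
  refine Finset.sum_eq_zero fun I _ => ?_
  rw [Matrix.mulVec_smul]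
  by_cases hI : ∃ b, S.c b I ≠ 0
  · have h2 := type_conj hΦ t j V h S.c f S.Ψ S.hext S.htype S.hc I 1
    have h3 : sgL Φ t j I 1 = 0 := sgL_zero hΦ t j V h hun S.c f S.Ψ S.hext S.htype S.hc I hI 1
    rw [h3, Int.cast_zero, neg_zero, zero_smul] at h2
    have h4 : (fun b => j (S.c b I)) = fun b => j ((1 : L ≃ₐ[ℚ] L) (S.c b I)) := rfl
    rw [h4, h2, smul_zero]
  · push Not at hI
    have h2 : (fun b => j (S.c b I)) = 0 := by
      funext b
      rw [hI b, map_zero]
      rfl
    rw [h2, Matrix.mulVec_zero, smul_zero]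

include hΦ in
/-- The coordinates of a Hodge class on `A × Z` are Hodge classes on `A`. -/
theorem functional_hodge (f : (∀ j, E (t j)) [⋀^Fin k]→ₗ[ℚ] (Fin v → ℚ))
    (S : Sit Φ t j V f) (hval : ∀ w : Fin k → ∀ j, E (t j), f w ∈ HZ V)
    (lam : (Fin v → ℚ) →ₗ[ℚ] ℚ) : IsHodgeForm (per Φ t) (lam.compAlternatingMap f) := by
  classical
  have h0 : ∀ x : Fin v → ℚ, lam x = ∑ b, x b * lam (Pi.single b 1) := by
    intro x
    conv_lhs => rw [← Finset.univ_sum_single x, map_sum]
    refine Finset.sum_congr rfl fun b _ => ?_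
    have h1 : (Pi.single b (x b) : Fin v → ℚ) = x b • Pi.single b 1 := by
      rw [← Pi.single_smul, smul_eq_mul, mul_one]
    rw [h1, map_smul, smul_eq_mul]
  -- the complex values are killed by the Hodge operator
  have hz : ∀ u : Fin k → Tan Φ t, V.z *ᵥ S.Ψ u = 0 := by
    intro u
    let G1 : MultilinearMap ℝ (fun _ : Fin k => Tan Φ t) (Fin v → ℂ) :=
      ((Matrix.mulVecLin V.z).restrictScalars ℝ).compMultilinearMap S.Ψ.toMultilinearMap
    have hG : G1 = 0 := by
      refine multilinear_ext_span _ _ _ (span_per t hΦ) ?_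
      intro x hx
      choose w hw using hx
      have hv' : x = fun l => per Φ t (w l) := funext fun l => (hw l).symm
      rw [hv']
      change V.z *ᵥ S.Ψ (fun l => per Φ t (w l)) = 0
      rw [S.hext]
      exact hval w
    exact DFunLike.congr_fun hG u
  let lamC : (Fin v → ℂ) →ₗ[ℂ] ℂ := ∑ b, ((lam (Pi.single b 1) : ℚ) : ℂ) • LinearMap.proj b
  have hlamC : ∀ y : Fin v → ℂ, lamC y = ∑ b, ((lam (Pi.single b 1) : ℚ) : ℂ) * y b := by
    intro y
    change (∑ b, ((lam (Pi.single b 1) : ℚ) : ℂ) •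
      (LinearMap.proj b : (Fin v → ℂ) →ₗ[ℂ] ℂ)) y = _
    rw [LinearMap.sum_apply]
    rfl
  refine ⟨(lamC.restrictScalars ℝ).compAlternatingMap S.Ψ, ?_, ?_⟩
  · intro w
    rw [LinearMap.compAlternatingMap_apply, LinearMap.compAlternatingMap_apply, S.hext]
    change lamC (cv (f w)) = _
    rw [hlamC, h0, Rat.cast_sum]
    refine Finset.sum_congr rfl fun b _ => ?_
    rw [Rat.cast_mul, mul_comm]
    rfl
  · intro u
    have h1 := S.htype u
    rw [hz u, add_zero] at h1
    have h2 : ∑ l, S.Ψ (Function.update u l (Complex.I • u l)) = 0 := by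
      have h3 : (-Complex.I) ≠ 0 := neg_ne_zero.2 Complex.I_ne_zero
      exact (smul_eq_zero.1 h1).resolve_left h3
    have h4 := congrArg (lamC.restrictScalars ℝ) h2
    rw [map_sum, map_zero] at h4
    exact h4

include hΦ in
/-- **Hodge classes on the product.** -/
theorem mem_hodgeBox (h : ∀ i, ∀ ψ : E i →+* ℂ, ∃ φ : E i →+* L, j.comp φ = ψ)
    (hun : ∀ i, UnrelatedHodge V (E i)) (F : HAZ (∀ j, E (t j)) v)
    (hF : IsHodgeOnProduct (per Φ t) V F) : F ∈ hodgeBox (per Φ t) V := by
  classical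
  obtain ⟨Ψ, hext, htype⟩ := hF
  have hS : ∀ k, Nonempty (Sit Φ t j V (F k)) := by
    intro k
    have h1 := fun b : Fin v => form_coeff t j h
      (((LinearMap.proj b : (Fin v → ℚ) →ₗ[ℚ] ℚ).compAlternatingMap (F k)).toMultilinearMap)
    choose c hc using h1
    refine ⟨⟨Ψ k, hext k, fun u => ?_, c, fun b w => hc b w⟩⟩
    rw [htype k u, Int.cast_zero, zero_smul]
  obtain ⟨N, hN⟩ : ∃ N, N = finrank ℚ (∀ j, E (t j)) := ⟨_, rfl⟩
  have hbig : ∀ k, N < k → F k = 0 := by
    intro k hk
    refine AlternatingMap.ext fun w => ?_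
    refine (F k).map_linearDependent w fun hw => ?_
    have h1 := hw.fintype_card_le_finrank
    rw [Fintype.card_fin, ← hN] at h1
    omega
  have hsum : F = ∑ k ∈ Finset.range (N + 1),
      (Pi.single k (F k) : HAZ (∀ j, E (t j)) v) := by
    funext k
    rw [Finset.sum_apply]
    by_cases hk : k ∈ Finset.range (N + 1)
    · rw [Finset.sum_eq_single k]
      · rw [Pi.single_eq_same]
      · intro l _ hl
        exact Pi.single_eq_of_ne (Ne.symm hl) _
      · intro h0
        exact absurd hk h0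
    · rw [Finset.sum_eq_zero]
      · refine hbig k ?_
        rw [Finset.mem_range] at hk
        omega
      · intro l hl
        refine Pi.single_eq_of_ne ?_ _
        rintro rfl
        exact hk hl
  rw [hsum]
  refine Submodule.sum_mem _ fun k _ => ?_
  obtain ⟨S⟩ := hS k
  have hval : ∀ w : Fin k → ∀ j, E (t j), F k w ∈ HZ V :=
    fun w => value_mem hΦ t j V h hun (F k) S w
  -- the coordinates on the space of the Hodge classes
  let x := Module.finBasis ℚ (HZ V)
  have hlam : ∀ r, ∃ lam : (Fin v → ℚ) →ₗ[ℚ] ℚ, ∀ y : HZ V, lam y = x.coord r y := by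
    intro r
    obtain ⟨lam, hlam⟩ := LinearMap.exists_extend (x.coord r)
    exact ⟨lam, fun y => LinearMap.congr_fun hlam y⟩
  choose lam hlam using hlam
  have h1 : (Pi.single k (F k) : HAZ (∀ j, E (t j)) v) =
      ∑ r, cross ((lam r).compAlternatingMap (F k)) (x r : Fin v → ℚ) := by
    have h2 : F k = ∑ r, (LinearMap.toSpanSingleton ℚ (Fin v → ℚ)
        (x r : Fin v → ℚ)).compAlternatingMap ((lam r).compAlternatingMap (F k)) := by
      refine AlternatingMap.ext fun w => ?_
      let ev : ((∀ j, E (t j)) [⋀^Fin k]→ₗ[ℚ] (Fin v → ℚ)) →+ (Fin v → ℚ) :=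
        { toFun := fun g => g w
          map_zero' := rfl
          map_add' := fun _ _ => rfl }
      change F k w = ev _
      rw [map_sum]
      have hw : F k w ∈ HZ V := hval w
      have h3 := x.sum_repr ⟨F k w, hw⟩
      have h4 := congrArg (Subtype.val : HZ V → (Fin v → ℚ)) h3
      rw [← Submodule.subtype_apply, map_sum] at h4
      refine Eq.trans h4.symm (Finset.sum_congr rfl fun r _ => ?_)
      rw [map_smul]
      change _ = lam r (F k w) • (x r : Fin v → ℚ)
      have h5 := hlam r ⟨F k w, hw⟩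
      rw [h5]
      rfl
    funext l
    rw [Finset.sum_apply]
    by_cases hl : l = k
    · subst hl
      rw [Pi.single_eq_same]
      conv_lhs => rw [h2]
      refine Finset.sum_congr rfl fun r _ => ?_
      rw [cross, Pi.single_eq_same]
    · rw [Pi.single_eq_of_ne hl, Finset.sum_eq_zero]
      intro r _
      rw [cross, Pi.single_eq_of_ne hl]
  rw [h1]
  refine Submodule.sum_mem _ fun r _ => Submodule.subset_span ?_
  exact ⟨k, _, _, functional_hodge hΦ t j V (F k) S hval (lam r), (x r).2, rfl⟩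

end

noncomputable section transfer

variable {W T : Type} [AddCommGroup W] [Module ℚ W] [AddCommGroup T] [Module ℂ T]
  {per : W →+ T} {v : ℕ} {V : Coh v}

theorem cross_same {k : ℕ} (f : W [⋀^Fin k]→ₗ[ℚ] ℚ) (x : Fin v → ℚ) (w : Fin k → W) :
    cross f x k w = f w • x := by
  rw [cross, Pi.single_eq_same]
  rfl

theorem cross_ne {k l : ℕ} (h : l ≠ k) (f : W [⋀^Fin k]→ₗ[ℚ] ℚ) (x : Fin v → ℚ) :
    cross f x l = 0 := by
  rw [cross, Pi.single_eq_of_ne h]

theorem cv_smul (r : ℚ) (x : Fin v → ℚ) : cv (r • x) = (r : ℂ) • cv x := by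
  funext b
  simp only [cv, Pi.smul_apply, smul_eq_mul, Rat.cast_mul]

theorem cv_zero : cv (0 : Fin v → ℚ) = 0 := by
  funext b
  simp only [cv, Pi.zero_apply, Rat.cast_zero]

theorem cv_add (x y : Fin v → ℚ) : cv (x + y) = cv x + cv y := by
  funext b
  simp only [cv, Pi.add_apply, Rat.cast_add]

/-- The product of Hodge classes is a Hodge class. -/
theorem cross_hodge {k : ℕ} {f : W [⋀^Fin k]→ₗ[ℚ] ℚ} {x : Fin v → ℚ} (hf : IsHodgeForm per f)
    (hx : IsHodgeOn V x) : IsHodgeOnProduct per V (cross f x) := by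
  obtain ⟨ψ, h1, h2⟩ := hf
  have hx' : V.z *ᵥ cv x = 0 := hx
  let g : ℂ →ₗ[ℝ] (Fin v → ℂ) := (LinearMap.toSpanSingleton ℂ (Fin v → ℂ) (cv x)).restrictScalars ℝ
  have hg : ∀ z : ℂ, g z = z • cv x := fun z => rfl
  refine ⟨Pi.single k (g.compAlternatingMap ψ), ?_, ?_⟩
  · intro l w
    by_cases hl : l = k
    · subst hl
      rw [Pi.single_eq_same, cross_same, LinearMap.compAlternatingMap_apply, h1 w, hg, cv_smul]
    · rw [Pi.single_eq_of_ne hl, cross_ne hl]
      change (0 : Fin v → ℂ) = cv (0 : Fin v → ℚ)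
      rw [cv_zero]
  · intro l u
    rw [Int.cast_zero, zero_smul]
    by_cases hl : l = k
    · subst hl
      have h3 : (Pi.single l (g.compAlternatingMap ψ) : HAZC T v) l = g.compAlternatingMap ψ :=
        Pi.single_eq_same _ _
      simp only [h3, LinearMap.compAlternatingMap_apply]
      rw [← map_sum, h2 u, map_zero, smul_zero, hg, Matrix.mulVec_smul, hx', smul_zero, add_zero]
    · have h3 : (Pi.single k (g.compAlternatingMap ψ) : HAZC T v) l = 0 :=
        Pi.single_eq_of_ne hl _
      simp only [h3]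
      change (-Complex.I) • ∑ l' : Fin l, (0 : Fin v → ℂ) + V.z *ᵥ (0 : Fin v → ℂ) = 0
      rw [Finset.sum_const_zero, smul_zero, Matrix.mulVec_zero, add_zero]

/-- The Hodge classes on the product form a rational space. -/
def hodgeAZ (per : W →+ T) (V : Coh v) : Submodule ℚ (HAZ W v) where
  carrier := {F | IsHodgeOnProduct per V F}
  add_mem' := by
    rintro F G ⟨Φ, h1, h2⟩ ⟨Ψ, h3, h4⟩
    refine ⟨Φ + Ψ, ?_, ?_⟩
    · intro k w
      change Φ k _ + Ψ k _ = cv (F k w + G k w)
      rw [h1 k w, h3 k w, cv_add]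
    · intro k u
      have h5 := h2 k u
      have h6 := h4 k u
      rw [Int.cast_zero, zero_smul] at h5 h6 ⊢
      change (-Complex.I) • ∑ l, (Φ k (Function.update u l (Complex.I • u l)) +
        Ψ k (Function.update u l (Complex.I • u l))) + V.z *ᵥ (Φ k u + Ψ k u) = 0
      rw [Finset.sum_add_distrib, smul_add, Matrix.mulVec_add]
      have h7 := congrArg₂ (· + ·) h5 h6
      simp only [add_zero] at h7
      rw [← h7]
      abel
  zero_mem' := by
    refine ⟨0, ?_, ?_⟩
    · intro k w
      change (0 : Fin v → ℂ) = cv (0 : Fin v → ℚ)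
      rw [cv_zero]
    · intro k u
      rw [Int.cast_zero, zero_smul]
      change (-Complex.I) • ∑ l : Fin k, (0 : Fin v → ℂ) + V.z *ᵥ (0 : Fin v → ℂ) = 0
      rw [Finset.sum_const_zero, smul_zero, Matrix.mulVec_zero, add_zero]
  smul_mem' := by
    rintro r F ⟨Φ, h1, h2⟩
    refine ⟨fun k => ((r : ℝ)) • Φ k, ?_, ?_⟩
    · intro k w
      change (r : ℝ) • Φ k _ = cv (r • F k w)
      rw [h1 k w, cv_smul]
      funext b
      simp [Complex.real_smul]
    · intro k u
      have h5 := h2 k u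
      rw [Int.cast_zero, zero_smul] at h5 ⊢
      change (-Complex.I) • ∑ l, (r : ℝ) • Φ k (Function.update u l (Complex.I • u l)) +
        V.z *ᵥ ((r : ℝ) • Φ k u) = 0
      rw [← Finset.smul_sum, Matrix.mulVec_smul, smul_comm, ← smul_add, h5, smul_zero]

variable {R : Type} [Field R] [CharZero R] {n : ℕ} {T' : Type} [AddCommGroup T']
    [Module ℂ T'] {per' : (Fin n → ℚ) →+ T'} {v' : ℕ} {V' : Coh v'}
    (C : Comparison R per v per' v')

theorem rv_add (x y : Fin v → ℚ) : rv R (x + y) = rv R x + rv R y := by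
  funext b
  simp only [rv, Pi.add_apply, Rat.cast_add]

theorem rv_smul (r : ℚ) (x : Fin v → ℚ) : rv R (r • x) = (r : R) • rv R x := by
  funext b
  simp only [rv, Pi.smul_apply, smul_eq_mul, Rat.cast_mul]

theorem rv_zero : rv R (0 : Fin v → ℚ) = 0 := by
  funext b
  simp only [rv, Pi.zero_apply, Rat.cast_zero]

/-- The classes which are transformed into Hodge classes. -/
def good (V' : Coh v') : Submodule ℚ (HAZ W v) where
  carrier := {F | ∃ F', IsHodgeOnProduct per' V' F' ∧ C.RelAZ F F'}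
  add_mem' := by
    rintro F G ⟨F', h1, h2⟩ ⟨G', h3, h4⟩
    refine ⟨F' + G', (hodgeAZ per' V').add_mem h1 h3, ?_⟩
    intro k w
    change C.D *ᵥ rv R (F k w + G k w) = _
    rw [rv_add, Matrix.mulVec_add, h2 k w, h4 k w, ← Finset.sum_add_distrib]
    refine Finset.sum_congr rfl fun J _ => ?_
    rw [← smul_add, ← rv_add]
    rfl
  zero_mem' := by
    refine ⟨0, (hodgeAZ per' V').zero_mem, ?_⟩
    intro k w
    change C.D *ᵥ rv R (0 : Fin v → ℚ) = _
    rw [rv_zero, Matrix.mulVec_zero]
    symm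
    refine Finset.sum_eq_zero fun J _ => ?_
    change _ • rv R (0 : Fin v' → ℚ) = 0
    rw [rv_zero, smul_zero]
  smul_mem' := by
    rintro r F ⟨F', h1, h2⟩
    refine ⟨r • F', (hodgeAZ per' V').smul_mem r h1, ?_⟩
    intro k w
    change C.D *ᵥ rv R (r • F k w) = _
    rw [rv_smul, Matrix.mulVec_smul, h2 k w, Finset.smul_sum]
    refine Finset.sum_congr rfl fun J _ => ?_
    change _ = _ • rv R (r • F' k _)
    rw [rv_smul, smul_comm]

/-- The transfer of absolute Hodge classes. -/
theorem abs_iff (h : ∀ F, IsHodgeOnProduct per V F → F ∈ hodgeBox per V) :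
    C.AbsAZ V V' ↔ C.AbsZ V V' := by
  constructor
  · intro h1 x hx
    have h2 : IsHodgeForm per (AlternatingMap.constOfIsEmpty ℚ W (Fin 0) (1 : ℚ)) := by
      refine ⟨AlternatingMap.constOfIsEmpty ℝ T (Fin 0) (1 : ℂ), fun w => ?_, fun u => ?_⟩
      · simp
      · rfl
    obtain ⟨F', h3, h4⟩ := h1 _ (cross_hodge (V := V) h2 hx)
    refine ⟨F' 0 (fun l => l.elim0), ?_, ?_⟩
    · obtain ⟨Φ, h5, h6⟩ := h3
      have h7 := h6 0 (fun l => l.elim0)
      rw [Int.cast_zero, zero_smul, Finset.univ_eq_empty, Finset.sum_empty, smul_zero,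
        zero_add] at h7
      have h8 := h5 0 (fun l => l.elim0)
      have h9 : (fun l : Fin 0 => per' ((fun l => l.elim0 : Fin 0 → (Fin n → ℚ)) l)) =
          fun l => l.elim0 := funext fun l => l.elim0
      rw [h9] at h8
      change V'.z *ᵥ cv _ = 0
      rw [← h8, h7]
    · have h5 := h4 0 (fun l => l.elim0)
      rw [cross_same] at h5
      have h6 : (AlternatingMap.constOfIsEmpty ℚ W (Fin 0) (1 : ℚ)) (fun l => l.elim0) = 1 := rfl
      rw [h6, one_smul] at h5
      change C.D *ᵥ rv R x = _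
      rw [h5, Fintype.sum_unique]
      simp only [Finset.univ_eq_empty, Finset.prod_empty, one_smul]
      congr 2
      funext l
      exact l.elim0
  · intro h1 F hF
    have h2 : hodgeBox per V ≤ good C V' := by
      refine Submodule.span_le.2 ?_
      rintro _ ⟨k, f, x, hf, hx, rfl⟩
      obtain ⟨f', hf', hff⟩ := C.deligne k f hf
      obtain ⟨x', hx', hxx⟩ := h1 x hx
      refine ⟨cross f' x', cross_hodge hf' hx', ?_⟩
      intro l w
      by_cases hl : l = k
      · subst hl
        rw [cross_same, rv_smul, Matrix.mulVec_smul]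
        have h3 : C.D *ᵥ rv R x = rv R x' := hxx
        rw [h3, hff w, Finset.sum_smul]
        refine Finset.sum_congr rfl fun J _ => ?_
        rw [cross_same, rv_smul, smul_smul]
      · rw [cross_ne hl]
        change C.D *ᵥ rv R (0 : Fin v → ℚ) = _
        rw [rv_zero, Matrix.mulVec_zero]
        symm
        refine Finset.sum_eq_zero fun J _ => ?_
        rw [cross_ne hl]
        change _ • rv R (0 : Fin v' → ℚ) = 0
        rw [rv_zero, smul_zero]
    exact h2 (h F hF)

end transfer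

/-- **All CM types.** -/
theorem absHodgeTimes_holds {ι : Type} [Fintype ι] {E : ι → Type} [∀ i, Field (E i)]
    [∀ i, NumberField (E i)] [∀ i, IsCMField (E i)] {Φ : ∀ i, Set (E i →+* ℂ)}
    (hΦ : ∀ i, IsCMType (Φ i)) : AbsHodgeTimes Φ := by
  obtain ⟨L, _, _, j, hj⟩ := exists_galois E
  intro J _ t v V hun
  have h1 : ∀ F, IsHodgeOnProduct (per Φ t) V F → F ∈ hodgeBox (per Φ t) V :=
    fun F hF => mem_hodgeBox hΦ t j V hj hun F hF
  exact ⟨h1, fun R _ _ n T' _ _ per' v' V' C => abs_iff C h1⟩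

/-- Varieties without parts with complex multiplication are unrelated to all fields. -/
theorem unrelated_of_noCM {v : ℕ} {V : Coh v} (h : NoCMParts V) (E : Type) [Field E] :
    UnrelatedHodge V E := by
  intro w d hw hty n hn hinv
  have h1 := h w d hw hty
  funext φ
  have h2 := hinv (starRingAut : ℂ ≃+* ℂ) (fun σ => by rw [h1, h1]) φ
  have h3 : ((starRingAut : ℂ ≃+* ℂ) : ℂ →+* ℂ).comp φ = ComplexEmbedding.conjugate φ := rfl
  rw [h3, hn φ] at h2
  have h4 : n φ = 0 := by linarith
  exact h4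

end Pool.Agent.R299.AHT
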