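import Pool.Agent.R299.AHT.Defs
import Pool.Agent.Y1.HZ.Main

/-!
# The coefficients of Hodge classes on products, for all CM types
-/

set_option autoImplicit false
set_option linter.unusedSectionVars false
set_option linter.unusedVariables false

namespace Pool.Agent.R299.AHT

open Matrix NumberField Module Equiv Pool.Agent.H204R3.CM Pool.Agent.TH131.GHC
  Pool.Agent.H977R3.CM Pool.Agent.TH504.VY Pool.Agent.Y1.HZ

noncomputable section

variable {ι J : Type} [Fintype ι] [Fintype J] {E : ι → Type} [∀ i, Field (E i)]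
  [∀ i, NumberField (E i)]
  {L : Type} [Field L] [NumberField L]
  {Φ : ∀ i, Set (E i →+* ℂ)} (hΦ : ∀ i, IsCMType (Φ i)) (t : J → ι) (j : L →+* ℂ)
  {v k : ℕ} (V : Coh v)

open Classical in
/-- The sign of an embedding. -/
def sg (Φ : ∀ i, Set (E i →+* ℂ)) (j : L →+* ℂ) (i : ι) (φ : E i →+* L) : ℤ :=
  if j.comp φ ∈ Φ i then 1 else -1

/-- The combination of the translates of the CM type, with the types as coefficients. -/
def frame (Φ : ∀ i, Set (E i →+* ℂ)) (t : J → ι) (j : L →+* ℂ) (I : Fin k → XX E t L) (i : ι)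
    (φ : E i →+* L) : ℤ :=
  ∑ σ : L ≃ₐ[ℚ] L, sgL Φ t j I σ * sg Φ j i (σ • φ)

theorem frame_inv (I : Fin k → XX E t L) (τ : L ≃ₐ[ℚ] L)
    (hτ : ∀ σ : L ≃ₐ[ℚ] L, sgL Φ t j I (σ * τ) = sgL Φ t j I σ) (i : ι) (φ : E i →+* L) :
    frame Φ t j I i (τ • φ) = frame Φ t j I i φ := by
  rw [frame, frame]
  refine Fintype.sum_equiv (Equiv.mulRight τ) _ _ fun σ => ?_
  rw [Equiv.coe_mulRight, hτ σ, smul_smul]

variable [∀ i, IsCMField (E i)]

include hΦ in
theorem sg_cbar (i : ι) (φ : E i →+* L) : sg Φ j i (cbar φ) = - sg Φ j i φ := by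
  classical
  have h3 : j.comp (cbar φ) = ComplexEmbedding.conjugate (j.comp φ) := by
    rw [← comp_cbar]
  rw [sg, sg, h3]
  by_cases h4 : j.comp φ ∈ Φ i
  · rw [if_pos h4, if_neg ((hΦ i _).1 h4)]
  · rw [if_neg h4, if_pos (conj_mem hΦ h4), neg_neg]

include hΦ in
theorem frame_cbar (I : Fin k → XX E t L) (i : ι) (φ : E i →+* L) :
    frame Φ t j I i (cbar φ) = - frame Φ t j I i φ := by
  rw [frame, frame, ← Finset.sum_neg_distrib]
  refine Finset.sum_congr rfl fun σ _ => ?_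
  have h2 : σ • cbar φ = cbar (σ • φ) := rfl
  rw [h2, sg_cbar hΦ j]
  ring

include hΦ in
theorem sum_frame (I : Fin k → XX E t L) :
    ∑ i, ∑ φ : E i →+* L, dif t I i φ * frame Φ t j I i φ =
      ∑ σ : L ≃ₐ[ℚ] L, 2 * sgL Φ t j I σ ^ 2 := by
  classical
  have h1 : ∀ i, ∀ φ : E i →+* L, dif t I i φ * frame Φ t j I i φ =
      ∑ σ : L ≃ₐ[ℚ] L, sgL Φ t j I σ * (dif t I i φ * sg Φ j i (σ • φ)) := by
    intro i φ
    rw [frame, Finset.mul_sum]
    refine Finset.sum_congr rfl fun σ _ => ?_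
    ring
  simp only [h1]
  have h2 : ∀ i, ∑ φ : E i →+* L, ∑ σ : L ≃ₐ[ℚ] L, sgL Φ t j I σ *
      (dif t I i φ * sg Φ j i (σ • φ)) =
      ∑ σ : L ≃ₐ[ℚ] L, ∑ φ : E i →+* L, sgL Φ t j I σ * (dif t I i φ * sg Φ j i (σ • φ)) :=
    fun i => Finset.sum_comm
  simp only [h2]
  rw [Finset.sum_comm]
  refine Finset.sum_congr rfl fun σ _ => ?_
  simp only [← Finset.mul_sum]
  have h3 := sum_dif hΦ t j I σ
  have h4 : ∑ i, ∑ φ : E i →+* L, dif t I i φ * sg Φ j i (σ • φ) = 2 * sgL Φ t j I σ := h3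
  rw [h4]
  ring

include hΦ in
theorem sgL_zero_of_frame (I : Fin k → XX E t L) (h : ∀ i (φ : E i →+* L), frame Φ t j I i φ = 0)
    (σ : L ≃ₐ[ℚ] L) : sgL Φ t j I σ = 0 := by
  have h1 := sum_frame hΦ t j I
  simp only [h, mul_zero, Finset.sum_const_zero] at h1
  have h2 := (Finset.sum_eq_zero_iff_of_nonneg (fun σ _ => by positivity)).1 h1.symm σ
    (Finset.mem_univ σ)
  nlinarith

variable [IsGalois ℚ L]

open Classical in
include hΦ in
/-- The monomials in a Hodge class have type zero. -/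
theorem sgL_zero (h : ∀ i, ∀ ψ : E i →+* ℂ, ∃ φ : E i →+* L, j.comp φ = ψ)
    (hun : ∀ i, UnrelatedHodge V (E i))
    (c : Fin v → (Fin k → XX E t L) → L)
    (f : (∀ j, E (t j)) [⋀^Fin k]→ₗ[ℚ] (Fin v → ℚ)) (Ψ : Tan Φ t [⋀^Fin k]→ₗ[ℝ] (Fin v → ℂ))
    (hext : ∀ w : Fin k → ∀ j, E (t j), Ψ (fun l => per Φ t (w l)) = cv (f w))
    (htype : ∀ u : Fin k → Tan Φ t,
      (-Complex.I) • ∑ l, Ψ (Function.update u l (Complex.I • u l)) + V.z *ᵥ Ψ u = 0)
    (hc : ∀ b (w : Fin k → ∀ j, E (t j)),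
      ((f w b : ℚ) : L) = ∑ I : Fin k → XX E t L, c b I * ∏ l, chi E t L (w l) (I l))
    (I : Fin k → XX E t L) (hI : ∃ b, c b I ≠ 0) (σ : L ≃ₐ[ℚ] L) :
    sgL Φ t j I σ = 0 := by
  choose g hg using fun s : ℂ ≃+* ℂ => exists_gal j s
  have hg1 : ∀ (s : ℂ ≃+* ℂ) (g' : L ≃ₐ[ℚ] L), (∀ x, s (j x) = j (g' x)) → g s = g' := by
    intro s g' hs
    ext x
    apply j.injective
    rw [← hg s x, hs x]
  have hmul : ∀ τ s : ℂ ≃+* ℂ, g (τ.trans s) = g s * g τ := by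
    intro τ s
    refine hg1 _ _ fun x => ?_
    rw [RingEquiv.trans_apply, hg τ, hg s]
    rfl
  let w : Fin v → ℂ := fun b => j (c b I)
  let d : (ℂ ≃+* ℂ) → ℤ := fun s => - sgL Φ t j I (g s)
  have hw : w ≠ 0 := by
    obtain ⟨b, hb⟩ := hI
    intro h0
    exact hb ((map_eq_zero j).1 (congrFun h0 b))
  have hty : HasTypes V w d := by
    intro s
    have h1 := type_conj hΦ t j V h c f Ψ hext htype hc I (g s)
    have h2 : (fun b => s (w b)) = fun b => j (g s (c b I)) := funext fun b => hg s (c b I)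
    rw [h2, h1]
    simp only [d, Int.cast_neg]
  refine sgL_zero_of_frame hΦ t j I (fun i φ => ?_) σ
  let e : (E i →+* L) ≃ (E i →+* ℂ) := embEquiv j (h i)
  have h1 := hun i w d hw hty (fun ψ => (frame Φ t j I i (e.symm ψ) : ℚ)) (by
    intro ψ
    obtain ⟨φ, rfl⟩ := e.surjective ψ
    have h2 : ComplexEmbedding.conjugate (e φ) = e (cbar φ) := (comp_cbar j φ).symm
    rw [h2, Equiv.symm_apply_apply, Equiv.symm_apply_apply, frame_cbar hΦ, Int.cast_neg]) (by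
    intro τ hτ ψ
    obtain ⟨φ, rfl⟩ := e.surjective ψ
    have h2 : (τ : ℂ →+* ℂ).comp (e φ) = e (g τ • φ) := by
      ext y
      exact hg τ (φ y)
    rw [h2, Equiv.symm_apply_apply, Equiv.symm_apply_apply]
    congr 1
    refine frame_inv t j I (g τ) (fun σ => ?_) i φ
    obtain ⟨s, hs⟩ := exists_aut j (σ : L ≃+* L)
    have h3 := hτ s
    have h4 : g s = σ := hg1 s σ hs
    simp only [d, hmul, h4] at h3
    linarith)
  have h2 := congrFun h1 (e φ)
  simp only [Equiv.symm_apply_apply, Pi.zero_apply, Int.cast_eq_zero] at h2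
  exact h2

end

end Pool.Agent.R299.AHT
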